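import Pool.Agent.MP_c1891a_nt.H43.Spec

/-
The lowest coefficient of a characteristic polynomial.
-/

namespace Pool.Agent.MP_c1891a_nt.H43

open Finset Polynomial Module

open Classical in
lemma frob_prod (w : ℂ → ℂ) (m : ℂ → ℝ) {θ : ℝ} (h0 : 0 < θ) (hm : ∀ α, 1 ≤ m α)
    (R : Multiset ℂ) (hR : ∀ α ∈ R, ‖w α‖ ≤ θ * m α) :
    (R.map fun α => (X - C (w α) : ℂ[X])).prod ≠ 0 ∧
    (R.map fun α => (X - C (w α) : ℂ[X])).prod.natTrailingDegree +
      (R.filter fun α => w α ≠ 0).card = R.card ∧
    ‖(R.map fun α => (X - C (w α) : ℂ[X])).prod.trailingCoeff‖ ≤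
      θ ^ (R.filter fun α => w α ≠ 0).card * (R.map m).prod := by
  induction R using Multiset.induction_on with
  | empty => simp [trailingCoeff]
  | cons a R ih =>
    obtain ⟨i1, i2, i3⟩ := ih fun α hα => hR α (Multiset.mem_cons_of_mem hα)
    have ha := hR a (Multiset.mem_cons_self a R)
    have hma := hm a
    have hne : (X - C (w a) : ℂ[X]) ≠ 0 := X_sub_C_ne_zero _
    simp only [Multiset.map_cons, Multiset.prod_cons, Multiset.card_cons]
    rw [natTrailingDegree_mul hne i1, trailingCoeff_mul, norm_mul]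
    refine ⟨mul_ne_zero hne i1, ?_⟩
    by_cases hw : w a = 0
    · rw [Multiset.filter_cons_of_neg _ (by simpa using hw), hw, C_0, sub_zero,
        natTrailingDegree_X]
      refine ⟨by omega, ?_⟩
      have : ‖(X : ℂ[X]).trailingCoeff‖ = 1 := by simp [trailingCoeff, natTrailingDegree_X]
      rw [this, mul_left_comm]
      exact mul_le_mul hma i3 (norm_nonneg _) (by linarith)
    · have hc : (X - C (w a) : ℂ[X]).coeff 0 ≠ 0 := by simpa using hw
      rw [Multiset.filter_cons_of_pos (p := fun α => w α ≠ 0) _ hw,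
        natTrailingDegree_eq_zero.2 (Or.inr hc),
        trailingCoeff_eq_coeff_zero hc, Multiset.card_cons]
      refine ⟨by omega, ?_⟩
      have : ‖(X - C (w a) : ℂ[X]).coeff 0‖ = ‖w a‖ := by simp
      rw [this, pow_succ']
      calc _ ≤ θ * m a * (θ ^ (R.filter fun α => w α ≠ 0).card * (R.map m).prod) :=
            mul_le_mul ha i3 (norm_nonneg _) (by positivity)
        _ = _ := by ring

lemma frob_res (f W : ℂ[X]) (D : ℕ) (hW : W.natDegree ≤ D) :
    resultant (f.map C) (C X - W.map C : ℂ[X][X]) f.natDegree D =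
      C (f.leadingCoeff ^ D) * (f.roots.map fun α => (X - C (W.eval α) : ℂ[X])).prod := by
  have hs : f.Splits := IsAlgClosed.splits f
  have h := resultant_eq_prod_eval (f.map C) (C X - W.map C : ℂ[X][X]) D
    ((natDegree_sub_le _ _).trans (by
      rw [natDegree_C]
      exact max_le (Nat.zero_le _) (natDegree_map_le.trans hW))) (hs.map C)
  rw [natDegree_map_eq_of_injective C_injective, leadingCoeff_map_of_injective C_injective,
    hs.roots_map_of_injective C_injective, Multiset.map_map] at h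
  rw [h, map_pow]
  congr 2
  refine Multiset.map_congr rfl fun α _ => ?_
  simp [eval_map, eval₂_at_apply]

lemma frob_lift {L : Type} [Field L] {f : L[X]} (hf : IntC f) :
    ∃ g : (integralClosure ℤ L)[X], g.map (algebraMap _ L) = f :=
  (mem_lifts f).1 ((lifts_iff_coeff_lifts f).2 fun i => ⟨⟨f.coeff i, hf i⟩, rfl⟩)

lemma frob_map {R S : Type} [CommRing R] [CommRing S] (φ : R →+* S) (f W : R[X]) (n D : ℕ) :
    (resultant (f.map C) (C X - W.map C : R[X][X]) n D).map φ =
      resultant ((f.map φ).map C) (C X - (W.map φ).map C : S[X][X]) n D := by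
  have h := resultant_map_map (f := f.map C) (g := (C X - W.map C : R[X][X])) (m := n) (n := D)
    (mapRingHom φ)
  rw [coe_mapRingHom] at h
  rw [← h, Polynomial.map_sub, Polynomial.map_map, Polynomial.map_map, map_C, coe_mapRingHom,
    map_X, mapRingHom_comp_C, Polynomial.map_map, Polynomial.map_map]

theorem sFrob (h : SNormP) : SFrob := by
  classical
  intro L _ _ σ₀ f W D n₀ θ hf hfi hWi hD h0 h1 hb hs
  obtain ⟨s, hs1, hs2, hs3⟩ := hs
  set χ : L[X] := resultant (f.map C) (C X - W.map C : L[X][X]) f.natDegree D with hχ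
  have hint : IntC χ := by
    obtain ⟨f', hf'⟩ := frob_lift hfi
    obtain ⟨W', hW'⟩ := frob_lift hWi
    have := frob_map (algebraMap _ L) f' W' f.natDegree D
    rw [hf', hW', ← hχ] at this
    intro i
    rw [← this, coeff_map]
    exact Subtype.property _
  have htd : ∀ σ : L →+* ℂ, (χ.map σ).natTrailingDegree = χ.natTrailingDegree := fun σ => by
    simp only [natTrailingDegree, trailingDegree, support_map_of_injective χ σ.injective]
  have key : ∀ σ : L →+* ℂ, χ ≠ 0 ∧ χ.natTrailingDegree +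
      ((f.map σ).roots.filter fun α => (W.map σ).eval α ≠ 0).card = f.natDegree ∧
      ‖σ χ.trailingCoeff‖ ≤ θ ^ ((f.map σ).roots.filter fun α => (W.map σ).eval α ≠ 0).card *
        (f.map σ).mahlerMeasure ^ D := by
    intro σ
    have hfσ : f.map σ ≠ 0 := Polynomial.map_ne_zero hf
    have e1 := frob_map σ f W f.natDegree D
    rw [← hχ, ← natDegree_map σ (p := f), frob_res _ _ _ (natDegree_map_le.trans hD)] at e1
    obtain ⟨i1, i2, i3⟩ := frob_prod (fun α => (W.map σ).eval α) (fun α => max 1 ‖α‖ ^ D) h0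
      (fun α => one_le_pow₀ (le_max_left _ _)) (f.map σ).roots
      fun α hα => hb σ α (isRoot_of_mem_roots hα)
    have hl : (C ((f.map σ).leadingCoeff ^ D) : ℂ[X]) ≠ 0 :=
      C_ne_zero.2 (pow_ne_zero _ (leadingCoeff_ne_zero.2 hfσ))
    refine ⟨?_, ?_, ?_⟩
    · intro h2
      rw [h2, Polynomial.map_zero] at e1
      exact mul_ne_zero hl i1 e1.symm
    · rw [← htd σ, e1, natTrailingDegree_mul hl i1, natTrailingDegree_C, zero_add, i2,
        ← (IsAlgClosed.splits (f.map σ)).natDegree_eq_card_roots, natDegree_map]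
    · have e2 : σ χ.trailingCoeff = (χ.map σ).trailingCoeff := by
        rw [trailingCoeff, trailingCoeff, htd, coeff_map]
      have e3 : (C ((f.map σ).leadingCoeff ^ D) : ℂ[X]).trailingCoeff =
          (f.map σ).leadingCoeff ^ D := by
        rw [trailingCoeff, natTrailingDegree_C, coeff_C_zero]
      rw [e2, e1, trailingCoeff_mul, norm_mul, e3, norm_pow,
        mahlerMeasure_eq_leadingCoeff_mul_prod_roots, mul_pow, ← Multiset.prod_map_pow,
        mul_left_comm]
      exact mul_le_mul_of_nonneg_left i3 (by positivity)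
  have hn0 : n₀ + χ.natTrailingDegree ≤ f.natDegree := by
    have := Multiset.card_le_card (Multiset.le_filter.2 ⟨hs1, hs3⟩ :
      s ≤ (f.map σ₀).roots.filter fun α => (W.map σ₀).eval α ≠ 0)
    have := (key σ₀).2.1
    omega
  have hM : ∀ σ : L →+* ℂ, 0 < (f.map σ).mahlerMeasure := fun σ =>
    mahlerMeasure_pos_of_ne_zero (Polynomial.map_ne_zero hf)
  have hc0 : χ.trailingCoeff ≠ 0 := trailingCoeff_nonzero_iff_nonzero.2 (key σ₀).1
  have h2 : 1 ≤ ∏ σ : L →+* ℂ, θ ^ n₀ * (f.map σ).mahlerMeasure ^ D := by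
    refine ((h L).1 _ (hint _) hc0).trans (prod_le_prod (fun _ _ => norm_nonneg _) fun σ _ => ?_)
    refine (key σ).2.2.trans (mul_le_mul_of_nonneg_right ?_ (pow_pos (hM σ) _).le)
    refine pow_le_pow_of_le_one h0.le h1 ?_
    have := (key σ).2.1
    omega
  have h3 := Real.log_nonneg h2
  rw [Real.log_prod fun σ _ => (mul_pos (pow_pos h0 _) (pow_pos (hM σ) _)).ne'] at h3
  have h4 : ∀ σ : L →+* ℂ, Real.log (θ ^ n₀ * (f.map σ).mahlerMeasure ^ D) =
      n₀ * Real.log θ + D * (f.map σ).logMahlerMeasure := fun σ => by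
    rw [Real.log_mul (pow_pos h0 _).ne' (pow_pos (hM σ) _).ne', Real.log_pow, Real.log_pow,
      logMahlerMeasure_eq_log_MahlerMeasure]
  simp only [h4, sum_add_distrib, sum_const, card_univ, NumberField.Embeddings.card,
    nsmul_eq_mul, ← mul_sum] at h3
  rw [one_div, Real.log_inv]
  linarith

end Pool.Agent.MP_c1891a_nt.H43
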